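import Mathlib
import Pool.Agent.L0h74.S4.B

set_option autoImplicit false

/-!
A quadrant version of Lévy's continuity theorem for empirical measures of finite sets in the plane: if
the characteristic functions converge to that of the standard normal law, then asymptotically a quarter
of the points have both coordinates nonnegative.
-/

namespace Pool.Agent.L0h74.QL

open Finset MeasureTheory ProbabilityTheory Filter Complex
open scoped ENNReal NNReal Topology

/-- the plane -/
abbrev E2 := EuclideanSpace ℝ (Fin 2)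

/-- The empirical measure -/
noncomputable def emp2 (S : Finset ℕ) (x : ℕ → E2) : Measure E2 :=
  (S.card : ℝ≥0∞)⁻¹ • ∑ D ∈ S, Measure.dirac (x D)

lemma emp2_apply (S : Finset ℕ) (x : ℕ → E2) {A : Set E2} (hA : MeasurableSet A) :
    emp2 S x A = (S.card : ℝ≥0∞)⁻¹ * ∑ D ∈ S, A.indicator 1 (x D) := by
  simp only [emp2, Measure.smul_apply, Measure.finsetSum_apply, smul_eq_mul]
  congr 1
  apply Finset.sum_congr rfl
  intro D _
  rw [Measure.dirac_apply' _ hA]

lemma emp2_prob {S : Finset ℕ} (hS : S.Nonempty) (x : ℕ → E2) :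
    IsProbabilityMeasure (emp2 S x) := by
  constructor
  rw [emp2_apply S x MeasurableSet.univ]
  simp only [Set.indicator_univ, Pi.one_apply, Finset.sum_const, nsmul_eq_mul, mul_one]
  apply ENNReal.inv_mul_cancel
  · exact_mod_cast (Finset.card_pos.2 hS).ne'
  · exact ENNReal.natCast_ne_top _

lemma emp2_charFun (S : Finset ℕ) (x : ℕ → E2) (t : E2) :
    charFun (emp2 S x) t = (S.card : ℂ)⁻¹ * ∑ D ∈ S, cexp ((t 0 * x D 0 + t 1 * x D 1 : ℝ) * I) := by
  rw [charFun_apply, emp2, integral_smul_measure, integral_finsetSum_measure]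
  · simp only [integral_dirac]
    rw [ENNReal.toReal_inv, ENNReal.toReal_natCast, Complex.real_smul]
    push_cast
    congr 1
    refine Finset.sum_congr rfl fun D _ => ?_
    congr 2
    rw [EuclideanSpace.inner_eq_star_dotProduct]
    simp [dotProduct, Fin.sum_univ_two]
  · intro D _
    apply integrable_dirac
    exact enorm_lt_top

/-- the quadrant -/
def Qd : Set E2 := {v | 0 ≤ v 0 ∧ 0 ≤ v 1}

lemma Qd_closed : IsClosed Qd := by
  have h0 : IsClosed {v : E2 | 0 ≤ v 0} := isClosed_le continuous_const (by fun_prop)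
  have h1 : IsClosed {v : E2 | 0 ≤ v 1} := isClosed_le continuous_const (by fun_prop)
  exact h0.inter h1

lemma emp2_Qd (S : Finset ℕ) (x : ℕ → E2) :
    (emp2 S x).real Qd = ((S.filter (fun D => 0 ≤ x D 0 ∧ 0 ≤ x D 1)).card : ℝ) / S.card := by
  rw [Measure.real, emp2_apply S x Qd_closed.measurableSet, ENNReal.toReal_mul, ENNReal.toReal_inv,
    ENNReal.toReal_natCast]
  have : ∑ D ∈ S, Qd.indicator (1 : E2 → ℝ≥0∞) (x D) =
      ((S.filter (fun D => 0 ≤ x D 0 ∧ 0 ≤ x D 1)).card : ℝ≥0∞) := by
    rw [Finset.card_filter]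
    push_cast
    apply Finset.sum_congr rfl
    intro D _
    simp [Set.indicator_apply, Qd]
  rw [this, ENNReal.toReal_natCast]
  field_simp

lemma std_apply (A : Fin 2 → Set ℝ) (hA : ∀ i, MeasurableSet (A i)) :
    (stdGaussian E2) {v : E2 | ∀ i, v i ∈ A i} = ∏ i, gaussianReal 0 1 (A i) := by
  have hm : MeasurableSet {v : E2 | ∀ i, v i ∈ A i} := by
    have : {v : E2 | ∀ i, v i ∈ A i} = ⋂ i, (fun v : E2 => v i) ⁻¹' A i := by
      ext v
      simp
    rw [this]
    refine MeasurableSet.iInter fun i => ?_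
    have hc : Continuous fun v : E2 => v i := by fun_prop
    exact hc.measurable (hA i)
  rw [← map_pi_eq_stdGaussian, Measure.map_apply (by fun_prop) hm, ← Measure.pi_pi]
  congr 1
  ext v
  simp [Set.mem_pi]

lemma std_axis (i : Fin 2) : (stdGaussian E2) {v : E2 | v i = 0} = 0 := by
  have h := std_apply (fun j => if j = i then {0} else Set.univ) (fun j => by
    split_ifs
    · exact measurableSet_singleton 0
    · exact MeasurableSet.univ)
  have e : {v : E2 | ∀ j, v j ∈ (if j = i then ({0} : Set ℝ) else Set.univ)} =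
      {v : E2 | v i = 0} := by
    ext v
    simp only [Set.mem_ofPred_eq]
    constructor
    · intro hv
      have := hv i
      rw [if_pos rfl] at this
      exact this
    · intro hv j
      split_ifs with hj
      · rw [hj]
        exact hv
      · trivial
  rw [e] at h
  rw [h]
  refine Finset.prod_eq_zero (Finset.mem_univ i) ?_
  rw [if_pos rfl]
  have hna : NullSingletonClass (gaussianReal (0 : ℝ) 1) :=
    nullSingletonClass_gaussianReal (by norm_num)
  simp

lemma std_quarter : (stdGaussian E2).real Qd = 1 / 4 := by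
  have h := std_apply (fun _ => Set.Ici 0) (fun _ => measurableSet_Ici)
  have e : {v : E2 | ∀ j, v j ∈ Set.Ici (0 : ℝ)} = Qd := by
    ext v
    simp [Qd, Fin.forall_fin_two]
  rw [e] at h
  rw [Measure.real, h, ENNReal.toReal_prod]
  have h2 := Pool.Agent.L0h74.S4.gauss_half
  rw [Measure.real] at h2
  simp only [h2]
  norm_num

theorem levy_quarter (S : ℕ → Finset ℕ) (hS : ∀ n, (S n).Nonempty) (x y : ℕ → ℕ → ℝ)
    (h : ∀ s t : ℝ, Tendsto (fun n => ((S n).card : ℂ)⁻¹ *
      ∑ D ∈ S n, cexp ((s * x n D + t * y n D : ℝ) * I)) atTop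
      (𝓝 (cexp (-(((s ^ 2 + t ^ 2) / 2 : ℝ) : ℂ))))) :
    Tendsto (fun n => (((S n).filter (fun D => 0 ≤ x n D ∧ 0 ≤ y n D)).card : ℝ) / (S n).card)
      atTop (𝓝 (1 / 4)) := by
  let z : ℕ → ℕ → E2 := fun n D => !₂[x n D, y n D]
  let μ : ℕ → ProbabilityMeasure E2 := fun n => ⟨emp2 (S n) (z n), emp2_prob (hS n) (z n)⟩
  let ν : ProbabilityMeasure E2 := ⟨stdGaussian E2, inferInstance⟩
  have h1 : Tendsto μ atTop (𝓝 ν) := by
    apply ProbabilityMeasure.tendsto_of_tendsto_charFun
    intro t
    have e1 : ∀ n, charFun ((μ n : ProbabilityMeasure E2) : Measure E2) t =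
        ((S n).card : ℂ)⁻¹ * ∑ D ∈ S n, cexp ((t 0 * x n D + t 1 * y n D : ℝ) * I) := fun n =>
      emp2_charFun _ _ _
    have e2 : charFun ((ν : ProbabilityMeasure E2) : Measure E2) t =
        cexp (-(((t 0 ^ 2 + t 1 ^ 2) / 2 : ℝ) : ℂ)) := by
      change charFun (stdGaussian E2) t = _
      rw [charFun_stdGaussian]
      congr 1
      have : ‖t‖ ^ 2 = t 0 ^ 2 + t 1 ^ 2 := by
        rw [EuclideanSpace.real_norm_sq_eq, Fin.sum_univ_two]
      rw [← Complex.ofReal_pow, this]
      push_cast
      ring
    simp only [e1, e2]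
    exact h (t 0) (t 1)
  have h2 := ProbabilityMeasure.tendsto_measure_of_null_frontier_of_tendsto' h1
    (E := Qd) (by
      change (stdGaussian E2) (frontier Qd) = 0
      have hf : frontier Qd ⊆ {v : E2 | v 0 = 0} ∪ {v : E2 | v 1 = 0} := by
        have e : Qd = {v : E2 | 0 ≤ v 0} ∩ {v : E2 | 0 ≤ v 1} := rfl
        rw [e]
        refine (frontier_inter_subset _ _).trans ?_
        refine Set.union_subset_union ?_ ?_
        · refine Set.inter_subset_left.trans ((frontier_le_subset_eq continuous_const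
            (by fun_prop)).trans ?_)
          intro v hv
          exact hv.symm
        · refine Set.inter_subset_right.trans ((frontier_le_subset_eq continuous_const
            (by fun_prop)).trans ?_)
          intro v hv
          exact hv.symm
      exact measure_mono_null hf (measure_union_null (std_axis 0) (std_axis 1)))
  have h3 := (ENNReal.tendsto_toReal (measure_ne_top ((ν : ProbabilityMeasure E2) : Measure E2)
    Qd)).comp h2
  have h4 : ∀ n, (ENNReal.toReal ∘ fun i => ((μ i : ProbabilityMeasure E2) : Measure E2)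
      Qd) n = (((S n).filter (fun D => 0 ≤ x n D ∧ 0 ≤ y n D)).card : ℝ) / (S n).card := by
    intro n
    exact emp2_Qd (S n) (z n)
  have h5 : (((ν : ProbabilityMeasure E2) : Measure E2) Qd).toReal = 1 / 4 := std_quarter
  rw [h5] at h3
  exact h3.congr h4

end Pool.Agent.L0h74.QL
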