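import Mathlib
import Pool.Agent.L0h74.QL.Gen
import Pool.Agent.L0h74.T3.S4

set_option autoImplicit false
set_option linter.unusedVariables false

/-!
The sums of a periodic function over the primes.
-/

namespace Pool.Agent.L0h74.QL

open Finset Filter
open scoped Topology
open Pool.Agent.L0h74.S4 (LP)

/-- Mertens' theorem -/
theorem hall : ∃ C : ℝ, 0 ≤ C ∧ ∀ y : ℕ, 3 ≤ y →
    |∑ p ∈ PP y, (1 : ℝ) / p - Real.log (Real.log y)| ≤ C := by
  obtain ⟨C1, hC1, h1⟩ := Pool.Agent.Y405.CQ.mertens_ap 1 le_rfl 0 one_pos (by norm_num)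
  refine ⟨C1, hC1, fun y hy => ?_⟩
  have := h1 y hy
  have e : (Icc 1 y).filter (fun p => p.Prime ∧ p % 1 = 0) = PP y := by
    unfold PP
    apply Finset.filter_congr
    intro p _
    simp [Nat.mod_one]
  rw [e] at this
  simpa using this

theorem lp_sum : ∃ C : ℝ, 0 ≤ C ∧ ∀ y : ℕ, 3 ≤ y →
    ∑ p ∈ PP y, (1 : ℝ) / p ≤ Real.log (Real.log y) + C ∧
    ∀ X : ℕ, y ≤ X → ∑ p ∈ LP y X, (1 : ℝ) / p ≤
      Real.log (Real.log X) - Real.log (Real.log y) + C := by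
  obtain ⟨C1, hC1, h1⟩ := hall
  refine ⟨2 * C1, by positivity, fun y hy => ⟨?_, fun X hX => ?_⟩⟩
  · have h3 := h1 y hy
    rw [abs_le] at h3
    linarith [h3.1, h3.2]
  · have h3 := h1 y hy
    have h4 := h1 X (hy.trans hX)
    rw [abs_le] at h3 h4
    have h5 : ∑ p ∈ PP y, (1 : ℝ) / p + ∑ p ∈ LP y X, (1 : ℝ) / p = ∑ p ∈ PP X, (1 : ℝ) / p := by
      rw [← Finset.sum_union]
      · apply Finset.sum_congr _ (fun _ _ => rfl)
        ext p
        simp only [PP, LP, mem_union, mem_filter, mem_Icc, mem_Ioc]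
        constructor
        · rintro (⟨⟨h1, h2⟩, h3⟩ | ⟨⟨h1, h2⟩, h3⟩)
          · exact ⟨⟨h1, by omega⟩, h3⟩
          · exact ⟨⟨by omega, h2⟩, h3⟩
        · rintro ⟨⟨h1, h2⟩, h3⟩
          by_cases hp : p ≤ y
          · left; exact ⟨⟨h1, hp⟩, h3⟩
          · right; exact ⟨⟨by omega, h2⟩, h3⟩
      · rw [Finset.disjoint_left]
        intro p h1 h2
        simp only [PP, LP, mem_filter, mem_Icc, mem_Ioc] at h1 h2
        omega
    linarith [h3.1, h3.2, h4.1, h4.2]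

/-- the reduced classes -/
def Rd (q : ℕ) : Finset ℕ := (range q).filter fun a => a.Coprime q

theorem QQ_cop {q y p : ℕ} (hp : p ∈ QQ q y) : p.Coprime q :=
  (mem_QQ.1 hp).2.1.coprime_iff_not_dvd.2 (mem_QQ.1 hp).2.2

theorem mod_cop {q p : ℕ} : (p % q).Coprime q ↔ p.Coprime q := by
  unfold Nat.Coprime
  rw [← Nat.gcd_rec, Nat.gcd_comm]

/-- **Mertens' theorem for a periodic function** -/
theorem mert_per {q : ℕ} (hq : 1 ≤ q) {g : ℕ → ℝ} (hg : ∀ p, g p = g (p % q)) {κ : ℝ}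
    (hκ : ∑ a ∈ Rd q, g a = κ * q.totient) : ∃ C : ℝ, 0 ≤ C ∧ ∀ y : ℕ, 3 ≤ y →
    |∑ p ∈ QQ q y, g p / p - κ * Real.log (Real.log y)| ≤ C := by
  have key : ∀ a ∈ Rd q, ∃ C : ℝ, 0 ≤ C ∧ ∀ y : ℕ, 3 ≤ y →
      |∑ p ∈ (Icc 1 y).filter (fun p => p.Prime ∧ p % q = a), (1 : ℝ) / p -
        1 / (Nat.totient q : ℝ) * Real.log (Real.log y)| ≤ C := by
    intro a ha
    rw [Rd, mem_filter, mem_range] at ha
    exact Pool.Agent.Y405.CQ.mertens_ap q hq a ha.1 ha.2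
  choose! C hC h using key
  refine ⟨∑ a ∈ Rd q, |g a| * C a, Finset.sum_nonneg fun a ha =>
    mul_nonneg (abs_nonneg _) (hC a ha), fun y hy => ?_⟩
  have hφ : (0 : ℝ) < Nat.totient q := by exact_mod_cast Nat.totient_pos.2 hq
  have e1 : ∑ p ∈ QQ q y, g p / p = ∑ a ∈ Rd q, g a *
      ∑ p ∈ (Icc 1 y).filter (fun p => p.Prime ∧ p % q = a), (1 : ℝ) / p := by
    rw [← Finset.sum_fiberwise_of_maps_to (s := QQ q y) (t := Rd q) (g := fun p => p % q)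
      (fun p hp => by
        rw [Rd, mem_filter, mem_range]
        exact ⟨Nat.mod_lt _ hq, mod_cop.2 (QQ_cop hp)⟩)]
    refine Finset.sum_congr rfl fun a ha => ?_
    rw [Rd, mem_filter, mem_range] at ha
    have e2 : (QQ q y).filter (fun p => p % q = a) =
        (Icc 1 y).filter (fun p => p.Prime ∧ p % q = a) := by
      ext p
      rw [mem_filter, mem_QQ, mem_filter, mem_Icc]
      constructor
      · rintro ⟨⟨h1, h2, h3⟩, h4⟩
        exact ⟨h1, h2, h4⟩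
      · rintro ⟨h1, h2, h4⟩
        refine ⟨⟨h1, h2, ?_⟩, h4⟩
        have h5 : p.Coprime q := mod_cop.1 (by rw [h4]; exact ha.2)
        exact h2.coprime_iff_not_dvd.1 h5
    rw [e2, Finset.mul_sum]
    refine Finset.sum_congr rfl fun p hp => ?_
    rw [mem_filter] at hp
    rw [hg p, hp.2.2]
    ring
  have e3 : κ * Real.log (Real.log y) = ∑ a ∈ Rd q, g a *
      (1 / (Nat.totient q : ℝ) * Real.log (Real.log y)) := by
    rw [← Finset.sum_mul, hκ]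
    field_simp
  rw [e1, e3, ← Finset.sum_sub_distrib]
  refine (Finset.abs_sum_le_sum_abs _ _).trans (Finset.sum_le_sum fun a ha => ?_)
  rw [← mul_sub, abs_mul]
  exact mul_le_mul_of_nonneg_left (h a ha y hy) (abs_nonneg _)

lemma corr (q y : ℕ) (hy : 1 ≤ y) (g : ℕ → ℝ) (hg : ∀ p, |g p| ≤ 1) :
    |∑ p ∈ QQ q y, g p / ((p : ℝ) + 1) - ∑ p ∈ QQ q y, g p / p| ≤ 1 := by
  rw [← Finset.sum_sub_distrib]
  refine (Finset.abs_sum_le_sum_abs _ _).trans ((Finset.sum_le_sum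
    (g := fun p : ℕ => (1 : ℝ) / (p : ℝ) ^ 2) ?_).trans
    ((sum_QQ q y (fun p => (1 : ℝ) / (p : ℝ) ^ 2) (fun p => by positivity)).trans
      (sum_sq_PP y hy)))
  intro p hp
  rw [mem_QQ] at hp
  have hp0 : (0 : ℝ) < p := by exact_mod_cast hp.2.1.pos
  have e1 : g p / ((p : ℝ) + 1) - g p / p = - (g p * (1 / (p * ((p : ℝ) + 1)))) := by
    field_simp; ring
  rw [e1, abs_neg, abs_mul, abs_of_pos (show (0 : ℝ) < 1 / (p * ((p : ℝ) + 1)) by positivity)]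
  calc |g p| * (1 / (p * ((p : ℝ) + 1))) ≤ 1 * (1 / (p * ((p : ℝ) + 1))) := by
        gcongr
        exact hg p
    _ ≤ 1 / (p : ℝ) ^ 2 := by
        rw [one_mul]
        apply one_div_le_one_div_of_le (by positivity)
        nlinarith

/-- the sums over the primes which do not divide `u` -/
theorem sum_per {u q : ℕ} (hu : 0 < u) (hq : 1 ≤ q) {g : ℕ → ℝ} (hg1 : ∀ p, |g p| ≤ 1)
    (hg : ∀ p, g p = g (p % q)) {κ : ℝ} (hκ : ∑ a ∈ Rd q, g a = κ * q.totient) :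
    ∃ C : ℝ, 0 ≤ C ∧ ∀ y : ℕ, 3 ≤ y →
    |∑ p ∈ QQ u y, g p / ((p : ℝ) + 1) - κ * Real.log (Real.log y)| ≤ C := by
  obtain ⟨C, hC, h⟩ := mert_per hq hg hκ
  have hc1 : (0 : ℝ) ≤ u.primeFactors.card := Nat.cast_nonneg _
  have hc2 : (0 : ℝ) ≤ q.primeFactors.card := Nat.cast_nonneg _
  refine ⟨C + 1 + u.primeFactors.card + q.primeFactors.card,
    add_nonneg (add_nonneg (add_nonneg hC zero_le_one) hc1) hc2, fun y hy => ?_⟩
  have h1 := h y hy
  have h2 := corr q y (by omega) g hg1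
  have h3 := sum_diff hu y g hg1
  have h4 := sum_diff hq y g hg1
  rw [abs_le] at *
  constructor <;> linarith [h1.1, h1.2, h2.1, h2.2, h3.1, h3.2, h4.1, h4.2]

theorem ps_of {u q : ℕ} (hu : 0 < u) (hq : 1 ≤ q) {w : ℕ → ℝ} (hw1 : ∀ p, |w p| ≤ 1)
    (hw : ∀ p, w p = w (p % q)) {κ : ℝ} (h0 : ∑ a ∈ Rd q, w a = 0)
    (h2 : ∑ a ∈ Rd q, w a ^ 2 = κ * q.totient) : Ps w u κ := by
  obtain ⟨C1, hC1, k1⟩ := sum_per hu hq hw1 hw (κ := 0) (by rw [h0, zero_mul])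
  obtain ⟨C2, hC2, k2⟩ := sum_per hu hq (g := fun p => w p ^ 2) (fun p => by
    rw [abs_pow]
    exact pow_le_one₀ (abs_nonneg _) (hw1 p)) (fun p => by rw [hw p]) h2
  obtain ⟨C3, hC3, k3⟩ := lp_sum
  refine ⟨hw1, C1 + C2 + C3, by positivity, fun y hy => ?_⟩
  obtain ⟨k4, k5⟩ := k3 y hy
  have h1 := k1 y hy
  have h2 := k2 y hy
  rw [zero_mul, sub_zero] at h1
  exact ⟨h1.trans (by linarith), h2.trans (by linarith), by linarith,
    fun X hX => by linarith [k5 X hX]⟩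

/-! ### the two weights -/

open Pool.Agent.L0h74 in
/-- the function of the field of the seventh roots -/
def f7 (p : ℕ) : ℤ := S4.fp p

open Pool.Agent.L0h74 in
/-- the function of the field of the third roots -/
def f3 (p : ℕ) : ℤ := T3.S4.fp p

lemma f7_mod (p : ℕ) : f7 p = f7 (p % 84) := by
  have h4 : p % 84 % 4 = p % 4 := Nat.mod_mod_of_dvd p (by norm_num)
  have h7 : p % 84 % 7 = p % 7 := Nat.mod_mod_of_dvd p (by norm_num)
  unfold f7 Pool.Agent.L0h74.S4.fp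
  rw [h4, h7]

lemma f3_mod (p : ℕ) : f3 p = f3 (p % 84) := by
  have h4 : p % 84 % 4 = p % 4 := Nat.mod_mod_of_dvd p (by norm_num)
  have h3 : p % 84 % 3 = p % 3 := Nat.mod_mod_of_dvd p (by norm_num)
  unfold f3 Pool.Agent.L0h74.T3.S4.fp
  rw [h4, h3]

lemma abs_f7 (p : ℕ) : |(f7 p : ℝ)| ≤ 1 := Pool.Agent.L0h74.S4.abs_fp p

lemma abs_f3 (p : ℕ) : |(f3 p : ℝ)| ≤ 1 := Pool.Agent.L0h74.T3.S4.abs_fp p

lemma s7 : ∑ a ∈ Rd 84, f7 a = 0 := by decide +kernel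
lemma s3 : ∑ a ∈ Rd 84, f3 a = 0 := by decide +kernel
lemma s77 : ∑ a ∈ Rd 84, f7 a ^ 2 = 12 := by decide +kernel
lemma s33 : ∑ a ∈ Rd 84, f3 a ^ 2 = 12 := by decide +kernel
lemma s73 : ∑ a ∈ Rd 84, f7 a * f3 a = 0 := by decide +kernel
lemma phi84 : Nat.totient 84 = 24 := by decide +kernel

/-- the combined weight -/
noncomputable def wt (s t : ℝ) (p : ℕ) : ℝ := (s * f7 p + t * f3 p) / (|s| + |t| + 1)

lemma wc_pos (s t : ℝ) : 0 < |s| + |t| + 1 := by positivity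

theorem ps_wt {u : ℕ} (hu : 0 < u) (s t : ℝ) :
    Ps (wt s t) u ((s ^ 2 + t ^ 2) / (2 * (|s| + |t| + 1) ^ 2)) := by
  have hc := wc_pos s t
  have c7 : (∑ a ∈ Rd 84, (f7 a : ℝ)) = 0 := by exact_mod_cast s7
  have c3 : (∑ a ∈ Rd 84, (f3 a : ℝ)) = 0 := by exact_mod_cast s3
  have c77 : (∑ a ∈ Rd 84, (f7 a : ℝ) ^ 2) = 12 := by exact_mod_cast s77
  have c33 : (∑ a ∈ Rd 84, (f3 a : ℝ) ^ 2) = 12 := by exact_mod_cast s33
  have c73 : (∑ a ∈ Rd 84, (f7 a : ℝ) * (f3 a : ℝ)) = 0 := by exact_mod_cast s73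
  refine ps_of hu (q := 84) (by norm_num) (fun p => ?_) (fun p => ?_) ?_ ?_
  · unfold wt
    rw [abs_div, abs_of_pos hc, div_le_one hc]
    refine (abs_add_le _ _).trans ?_
    rw [abs_mul, abs_mul]
    have h1 := mul_le_mul_of_nonneg_left (abs_f7 p) (abs_nonneg s)
    have h2 := mul_le_mul_of_nonneg_left (abs_f3 p) (abs_nonneg t)
    linarith
  · unfold wt
    rw [f7_mod, f3_mod]
  · unfold wt
    rw [← Finset.sum_div, Finset.sum_add_distrib, ← Finset.mul_sum, ← Finset.mul_sum, c7, c3]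
    simp
  · have e : ∀ a, wt s t a ^ 2 = (s ^ 2 * (f7 a : ℝ) ^ 2 + 2 * s * t * ((f7 a : ℝ) * f3 a) +
        t ^ 2 * (f3 a : ℝ) ^ 2) / (|s| + |t| + 1) ^ 2 := by
      intro a
      unfold wt
      rw [div_pow]
      ring
    rw [Finset.sum_congr rfl fun a _ => e a, ← Finset.sum_div, Finset.sum_add_distrib,
      Finset.sum_add_distrib, ← Finset.mul_sum, ← Finset.mul_sum, ← Finset.mul_sum, c77, c33, c73,
      phi84]
    field_simp
    push_cast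
    ring

end Pool.Agent.L0h74.QL
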