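import Mathlib
import Pool.Agent.L0h74.QL.Lev
import Pool.Agent.L0h74.QL.Sum

set_option autoImplicit false
set_option linter.unusedVariables false

/-!
The quarter law for the numbers of prime factors with signs in two quadratic fields.
-/

namespace Pool.Agent.L0h74.QL

open Finset Filter
open scoped Topology
open Pool.Agent.L0h74.S4 (LL yy th tendsto_LL tendsto_th)

/-- the two additive functions -/
def m7 (D : ℕ) : ℤ := ∑ p ∈ D.primeFactors, f7 p

/-- the two additive functions -/
def m3 (D : ℕ) : ℤ := ∑ p ∈ D.primeFactors, f3 p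

theorem W_wt (s t : ℝ) (D : ℕ) :
    W (wt s t) D = (s * m7 D + t * m3 D) / (|s| + |t| + 1) := by
  unfold W wt m7 m3
  push_cast
  rw [← Finset.sum_div, Finset.sum_add_distrib, ← Finset.mul_sum, ← Finset.mul_sum]

section
variable {u a : ℕ}

theorem char2 (hco : Cq u a) (s t : ℝ) : Tendsto (fun X : ℕ => ((GS u a X).card : ℂ)⁻¹ *
    ∑ D ∈ GS u a X, Complex.exp ((th s X * m7 D + th t X * m3 D : ℝ) * Complex.I)) atTop
      (𝓝 (Complex.exp (-(((s ^ 2 + t ^ 2) / 2 : ℝ) : ℂ)))) := by
  have hc := wc_pos s t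
  have h := char_lim (ps_wt hco.pos s t) hco (|s| + |t| + 1)
  have e1 : (s ^ 2 + t ^ 2) / (2 * (|s| + |t| + 1) ^ 2) * (|s| + |t| + 1) ^ 2 =
      (s ^ 2 + t ^ 2) / 2 := by
    field_simp
  rw [e1] at h
  refine h.congr fun X => ?_
  unfold SS
  congr 1
  refine Finset.sum_congr rfl fun D _ => ?_
  congr 3
  rw [W_wt]
  unfold th
  field_simp

theorem quarter_lim (hco : Cq u a) (M N : ℤ) : Tendsto (fun X : ℕ =>
    (((GS u a X).filter (fun D => M ≤ m7 D ∧ N ≤ m3 D)).card : ℝ) / (GS u a X).card) atTop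
      (𝓝 (1 / 4)) := by
  obtain ⟨N0, hN⟩ := (eventually_atTop.1 (card_low (ps_wt hco.pos 0 0) hco))
  have hne : ∀ n, (GS u a (n + (N0 + 1))).Nonempty := by
    intro n
    obtain ⟨h1, h2⟩ := hN (n + (N0 + 1)) (by omega)
    rw [nonempty_iff_ne_empty]
    intro h3
    rw [h3] at h1
    have hu0 : (0 : ℝ) < u := by exact_mod_cast hco.pos
    have : (0 : ℝ) < 2 / (7 * u) := by positivity
    simp at h1
    linarith
  rw [← tendsto_add_atTop_iff_nat (N0 + 1)]
  have h := levy_quarter (fun n => GS u a (n + (N0 + 1))) hne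
    (fun n D => ((m7 D : ℝ) - M) / Real.sqrt (LL (n + (N0 + 1)) / 2))
    (fun n D => ((m3 D : ℝ) - N) / Real.sqrt (LL (n + (N0 + 1)) / 2)) (by
      intro s t
      have h1 := (char2 hco s t).comp (tendsto_add_atTop_nat (N0 + 1))
      have h2 : Tendsto (fun n : ℕ => Complex.exp (((-(th s (n + (N0 + 1)) * M +
          th t (n + (N0 + 1)) * N) : ℝ) : ℂ) * Complex.I)) atTop
          (𝓝 (Complex.exp (((-(0 * (M : ℝ) + 0 * (N : ℝ)) : ℝ) : ℂ) * Complex.I))) := by
        have h3 : Tendsto (fun n : ℕ => (-(th s (n + (N0 + 1)) * M +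
            th t (n + (N0 + 1)) * N) : ℝ)) atTop (𝓝 (-(0 * (M : ℝ) + 0 * (N : ℝ)))) :=
          ((((tendsto_th s).comp (tendsto_add_atTop_nat (N0 + 1))).mul_const _).add
            (((tendsto_th t).comp (tendsto_add_atTop_nat (N0 + 1))).mul_const _)).neg
        exact (Complex.continuous_exp.tendsto _).comp
          (((Complex.continuous_ofReal.tendsto _).comp h3).mul_const _)
      have h4 := h1.mul h2
      have e0 : Complex.exp (((-(0 * (M : ℝ) + 0 * (N : ℝ)) : ℝ) : ℂ) * Complex.I) = 1 := by simp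
      rw [e0, mul_one] at h4
      refine h4.congr (fun n => ?_)
      simp only [Function.comp]
      rw [mul_assoc, Finset.sum_mul]
      congr 1
      apply Finset.sum_congr rfl
      intro D _
      rw [← Complex.exp_add]
      congr 1
      unfold th
      push_cast
      ring)
  refine h.congr' ?_
  have hLL := tendsto_LL.comp (tendsto_add_atTop_nat (N0 + 1))
  filter_upwards [hLL.eventually_gt_atTop 0] with n hn
  simp only [Function.comp] at hn
  congr 3
  apply Finset.filter_congr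
  intro D _
  have hs : 0 < Real.sqrt (LL (n + (N0 + 1)) / 2) := Real.sqrt_pos.2 (by linarith)
  rw [le_div_iff₀ hs, zero_mul, sub_nonneg, le_div_iff₀ hs, zero_mul, sub_nonneg]
  constructor
  · rintro ⟨h1, h2⟩
    exact ⟨by exact_mod_cast h1, by exact_mod_cast h2⟩
  · rintro ⟨h1, h2⟩
    exact ⟨by exact_mod_cast h1, by exact_mod_cast h2⟩

end

end Pool.Agent.L0h74.QL
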