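import Mathlib
import Pool.Agent.L0h74.QL.Qua
import Pool.Agent.L0h74.AP.KDL
import Pool.Agent.L0h86.XF.Stm

set_option autoImplicit false
set_option linter.unusedVariables false

/-!
The quarter law for the two differences, in the form `S_QL` of helper86's project XF.
-/

open scoped Classical

namespace Pool.Agent.L0h74.QL

open Finset Filter
open scoped Topology
open Pool.Agent.L0h74.S4 (LL yy th tendsto_LL tendsto_th levy_half)
open Pool.Agent.L0h74.EV (Cl SE)
open Pool.Agent.L0h86.XF (kd ty mF S_QL)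

theorem cq_of {u a : ℕ} (h : Pool.Agent.L0h74.AP.Cp u a) : Cq u a := ⟨h.pos, h.lt, h.cop⟩

theorem GS_AP (u a X : ℕ) : Pool.Agent.L0h74.AP.GS u a X = GS u a X := rfl

/-- half of the numbers have `m3` at least `N` -/
theorem half3 {u a : ℕ} (hco : Cq u a) (N : ℤ) : Tendsto (fun X : ℕ =>
    (((GS u a X).filter (fun D => N ≤ m3 D)).card : ℝ) / (GS u a X).card) atTop
      (𝓝 (1 / 2)) := by
  obtain ⟨N0, hN⟩ := (eventually_atTop.1 (card_low (ps_wt hco.pos 0 0) hco))
  have hne : ∀ n, (GS u a (n + (N0 + 1))).Nonempty := by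
    intro n
    obtain ⟨h1, h2⟩ := hN (n + (N0 + 1)) (by omega)
    rw [nonempty_iff_ne_empty]
    intro h3
    rw [h3] at h1
    have hu0 : (0 : ℝ) < u := by exact_mod_cast hco.pos
    have : (0 : ℝ) < 2 / (7 * u) := by positivity
    simp at h1
    linarith
  rw [← tendsto_add_atTop_iff_nat (N0 + 1)]
  have h := levy_half (fun n => GS u a (n + (N0 + 1))) hne
    (fun n D => ((m3 D : ℝ) - N) / Real.sqrt (LL (n + (N0 + 1)) / 2)) (by
      intro t
      have h1 := (char2 hco 0 t).comp (tendsto_add_atTop_nat (N0 + 1))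
      have h2 : Tendsto (fun n : ℕ => Complex.exp (((-(th t (n + (N0 + 1)) * N) : ℝ) : ℂ) *
          Complex.I)) atTop (𝓝 (Complex.exp (((-(0 * (N : ℝ)) : ℝ) : ℂ) * Complex.I))) := by
        have h3 : Tendsto (fun n : ℕ => (-(th t (n + (N0 + 1)) * N) : ℝ)) atTop
            (𝓝 (-(0 * (N : ℝ)))) :=
          (((tendsto_th t).comp (tendsto_add_atTop_nat (N0 + 1))).mul_const _).neg
        exact (Complex.continuous_exp.tendsto _).comp
          (((Complex.continuous_ofReal.tendsto _).comp h3).mul_const _)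
      have h4 := h1.mul h2
      have e0 : Complex.exp (((-(0 * (N : ℝ)) : ℝ) : ℂ) * Complex.I) = 1 := by simp
      have e5 : Complex.exp (-((((0 : ℝ) ^ 2 + t ^ 2) / 2 : ℝ) : ℂ)) =
          Complex.exp (-((t : ℂ) ^ 2 / 2)) := by
        congr 1
        push_cast
        ring
      rw [e0, mul_one, e5] at h4
      refine h4.congr (fun n => ?_)
      simp only [Function.comp]
      rw [mul_assoc, Finset.sum_mul]
      congr 1
      apply Finset.sum_congr rfl
      intro D _
      rw [← Complex.exp_add]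
      congr 1
      unfold th
      push_cast
      ring)
  refine h.congr' ?_
  have hLL := tendsto_LL.comp (tendsto_add_atTop_nat (N0 + 1))
  filter_upwards [hLL.eventually_gt_atTop 0] with n hn
  simp only [Function.comp] at hn
  congr 3
  apply Finset.filter_congr
  intro D _
  have hs : 0 < Real.sqrt (LL (n + (N0 + 1)) / 2) := Real.sqrt_pos.2 (by linarith)
  rw [le_div_iff₀ hs, zero_mul, sub_nonneg]
  constructor
  · intro h; exact_mod_cast h
  · intro h; exact_mod_cast h

/-! ### the differences -/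

theorem kd_false (S : Finset ℕ) : kd false S = Pool.Agent.N973.ND.kd S := rfl

theorem m3_eq (D : ℕ) : m3 D =
    ((D.primeFactors.filter fun p => p % 4 = 3 ∧ p % 3 = 1).card : ℤ) -
    ((D.primeFactors.filter fun p => p % 4 = 3 ∧ p % 3 = 2).card : ℤ) := by
  unfold m3
  rw [Finset.card_filter, Finset.card_filter]
  push_cast
  rw [← Finset.sum_sub_distrib]
  apply Finset.sum_congr rfl
  intro p _
  unfold f3 Pool.Agent.L0h74.T3.S4.fp
  split_ifs with h1 h2 h3
  · omega
  · norm_num
  · norm_num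
  · norm_num

theorem kd_true {D : ℕ} (h3 : D % 3 ≠ 0) : kd true D.primeFactors = m3 D := by
  rw [m3_eq, kd]
  have hp3 : ∀ p ∈ D.primeFactors, p % 3 ≠ 0 := by
    intro p hp h
    have hpp := Nat.prime_of_mem_primeFactors hp
    have hd := Nat.dvd_of_mem_primeFactors hp
    have h8 : 3 ∣ p := Nat.dvd_of_mod_eq_zero h
    exact h3 (Nat.mod_eq_zero_of_dvd (h8.trans hd))
  have e3 : D.primeFactors.filter (fun p => ty true p = 3) = D.primeFactors.filter
      fun p => p % 4 = 3 ∧ p % 3 = 1 := by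
    apply filter_congr
    intro p _
    unfold ty mF Pool.Agent.L0h74.T3.m3
    simp only [if_true]
    split_ifs <;> constructor <;> intro hh <;> omega
  have e1 : D.primeFactors.filter (fun p => ty true p = 1) = D.primeFactors.filter
      fun p => p % 4 = 3 ∧ p % 3 = 2 := by
    apply filter_congr
    intro p hp
    have h7 := hp3 p hp
    unfold ty mF Pool.Agent.L0h74.T3.m3
    simp only [if_true]
    split_ifs <;> constructor <;> intro hh <;> omega
  rw [e3, e1]

/-- from the quotients to the differences -/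
theorem abs_of {c : ℝ} {A B : ℕ → ℕ} (hAB : ∀ X, (B X : ℝ) ≤ X)
    (hB : ∀ᶠ X : ℕ in atTop, 0 < B X)
    (h : Tendsto (fun X : ℕ => (A X : ℝ) / B X) atTop (𝓝 c)) (ε : ℝ) (hε : 0 < ε) :
    ∃ X₀ : ℕ, ∀ X : ℕ, X₀ ≤ X → |(A X : ℝ) - c * B X| ≤ ε * X := by
  rw [Metric.tendsto_atTop] at h
  obtain ⟨X₀, h0⟩ := h ε hε
  obtain ⟨X₁, h1⟩ := eventually_atTop.1 hB
  refine ⟨max X₀ X₁, fun X hX => ?_⟩
  have h2 := h0 X ((le_max_left _ _).trans hX)
  have h3 := h1 X ((le_max_right _ _).trans hX)
  have hG : (0 : ℝ) < B X := by exact_mod_cast h3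
  rw [Real.dist_eq] at h2
  have h5 : (A X : ℝ) - c * B X = ((A X : ℝ) / B X - c) * B X := by
    field_simp
  rw [h5, abs_mul, abs_of_pos hG]
  exact mul_le_mul h2.le (hAB X) hG.le hε.le

theorem GS_le (u a X : ℕ) : ((GS u a X).card : ℝ) ≤ X := by
  have h1 : GS u a X ⊆ Icc 1 X := by
    unfold GS
    exact filter_subset _ _
  have h := card_le_card h1
  rw [Nat.card_Icc] at h
  exact_mod_cast (by omega : (GS u a X).card ≤ X)

/-- **the quarter law** -/
theorem t_QL : S_QL := by
  intro u a hc h84 M N ε hε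
  have hco := cq_of hc
  have h4 : 4 ∣ u := (by norm_num : 4 ∣ 84).trans h84
  have h3u : 3 ∣ u := (by norm_num : 3 ∣ 84).trans h84
  have hg : Pool.Agent.L0h74.AP.Cg 1 u a :=
    ⟨hc, h4, squarefree_one, one_dvd _, Nat.coprime_one_left 14⟩
  have hGS : ∀ X, Pool.Agent.L0h74.AP.GSg 1 u a X = GS u a X := by
    intro X
    unfold Pool.Agent.L0h74.AP.GSg GS
    rw [one_mul, one_mul]
  have hbij : ∀ (X : ℕ) (G : Finset ℕ → Prop) [DecidablePred G]
      [DecidablePred fun D : ℕ => G D.primeFactors], ((SE u a X).filter G).card =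
      ((GS u a X).filter fun D => G D.primeFactors).card := by
    intro X G _ _
    have h1 := Pool.Agent.L0h74.AP.card_eq hg X G
    rw [one_mul, one_mul, hGS] at h1
    exact h1
  have hbij0 : ∀ X : ℕ, (SE u a X).card = (GS u a X).card := by
    intro X
    have := hbij X fun _ => True
    simpa using this
  have hpos : ∀ᶠ X : ℕ in atTop, 0 < (GS u a X).card := by
    filter_upwards [card_low (ps_wt hco.pos 0 0) hco] with X hX
    obtain ⟨h1, h2⟩ := hX
    have hX0 : (0 : ℝ) < X := by exact_mod_cast h2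
    have hu0 : (0 : ℝ) < u := by exact_mod_cast hco.pos
    have h5 : (0 : ℝ) < ((GS u a X).card : ℝ) / X := lt_of_lt_of_le (by positivity) h1
    by_contra hne
    have h6 : (GS u a X).card = 0 := by omega
    rw [h6] at h5
    simp at h5
  have hpr : ∀ X, ∀ D ∈ GS u a X, kd false D.primeFactors = m7 D ∧
      kd true D.primeFactors = m3 D := by
    intro X D hD
    rw [GS, mem_filter] at hD
    constructor
    · rw [kd_false]
      exact Pool.Agent.L0h74.KD.KDL.kd_eq
        (Pool.Agent.L0h74.AP.pr_of (hc.modd hD.2.2) (hc.mod7 hD.2.2))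
    · refine kd_true fun h3 => ?_
      exact hc.nd Nat.prime_three hD.2.2 (Nat.dvd_of_mod_eq_zero h3) h3u
  obtain ⟨X₁, g1⟩ := abs_of (c := 1 / 4) (GS_le u a) hpos (quarter_lim hco M N) ε hε
  obtain ⟨X₂, g2⟩ := abs_of (c := 1 / 2) (GS_le u a) hpos
    (Pool.Agent.L0h74.AP.half_limZ hc M) ε hε
  obtain ⟨X₃, g3⟩ := abs_of (c := 1 / 2) (GS_le u a) hpos (half3 hco N) ε hε
  refine ⟨max X₁ (max X₂ X₃), fun X hX => ?_⟩
  have k1 := g1 X ((le_max_left _ _).trans hX)
  have k2 := g2 X (((le_max_left _ _).trans (le_max_right _ _)).trans hX)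
  have k3 := g3 X (((le_max_right _ _).trans (le_max_right _ _)).trans hX)
  refine ⟨?_, ?_, ?_⟩
  · rw [hbij X (fun S => M ≤ kd false S ∧ N ≤ kd true S), hbij0,
      show (GS u a X).filter (fun D => M ≤ kd false D.primeFactors ∧
      N ≤ kd true D.primeFactors) = (GS u a X).filter (fun D => M ≤ m7 D ∧ N ≤ m3 D) from
      filter_congr fun D hD => by rw [(hpr X D hD).1, (hpr X D hD).2]]
    exact k1
  · rw [hbij X (fun S => M ≤ kd false S), hbij0,
      show (GS u a X).filter (fun D => M ≤ kd false D.primeFactors) =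
      (GS u a X).filter (fun D => M ≤ m7 D) from
      filter_congr fun D hD => by rw [(hpr X D hD).1]]
    exact k2
  · rw [hbij X (fun S => N ≤ kd true S), hbij0,
      show (GS u a X).filter (fun D => N ≤ kd true D.primeFactors) =
      (GS u a X).filter (fun D => N ≤ m3 D) from
      filter_congr fun D hD => by rw [(hpr X D hD).2]]
    exact k3

end Pool.Agent.L0h74.QL
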